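import Pool.Agent.Helper823.MMT.Main2
open Complex MeasureTheory Filter Topology Set
open scoped ContDiff ENNReal
namespace Pool.Agent.Results.MP_0dc93f_an.ClassificationBelowHalf
open MMT

/-- For exponents below 1/2, every datum of the energy space has a global solution in the sense
fixed in the problem if and only if the exponent is at most 0. -/
theorem result (α : ℝ) (hα : α < 1 / 2) :
    (∀ u₀ : ℤ → ℂ, hd α u₀ 0 < ⊤ → ∃ u : ℝ → ℤ → ℂ, IsGlobalSol α u₀ u) ↔ α ≤ 0 :=
  MMT.classification α hα

end Pool.Agent.Results.MP_0dc93f_an.ClassificationBelowHalf
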