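import Pool.Agent.Helper823.MMT.Main
open Complex MeasureTheory Filter Topology Set
open scoped ContDiff ENNReal
namespace Pool.Agent.Results.MP_0dc93f_an.NoSolutionBelowHalf
open MMT

/-- For every exponent strictly between 0 and 1/2 some datum of the energy space has no
global solution in the sense fixed in the problem. -/
theorem result (α : ℝ) (h0 : 0 < α) (h1 : α < 1 / 2) :
    ∃ u₀ : ℤ → ℂ, hd α u₀ 0 < ⊤ ∧ ¬ ∃ u : ℝ → ℤ → ℂ, IsGlobalSol α u₀ u :=
  MMT.main_neg α h0 h1

/-- Sanity check: the notion of solution is not empty, the zero datum has the zero solution. -/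
theorem zero_sol (α : ℝ) : IsGlobalSol α 0 (fun _ => 0) := by
  have hfc : fc (fun _ => (0:ℂ)) = 0 := by funext k; simp [fc]
  have hd0 : hd α 0 0 = 0 := by simp [hd]
  refine ⟨fun t => by rw [hd0]; exact ENNReal.zero_lt_top, fun t => by simp only [hd0]; exact tendsto_const_nhds, rfl, ?_⟩
  intro T hT
  refine ⟨fun _ _ => 0, fun _ _ _ => 0, fun n => ⟨contDiff_const, fun x => rfl⟩, ?_, ?_, ?_⟩
  · simp only [hfc, hd0]; exact tendsto_const_nhds
  · filter_upwards with n
    refine ⟨⟨contDiffOn_const, fun t _ x => rfl, fun t _ x => ?_⟩, rfl⟩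
    simp [absD, hfc]
  · simp only [hfc, hd0]
    simp

end Pool.Agent.Results.MP_0dc93f_an.NoSolutionBelowHalf
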